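import Pool.Agent.Run7.h200.HTMain

/-!
# Group actions and the standard conjecture of Hodge type

Let a finite group `G` act on a smooth projective variety `X` of dimension `n` over an algebraically
closed field of any characteristic, let `D` be a divisor with hard Lefschetz whose class is
invariant under `G`, and let `R` be numerical or homological equivalence of cycles, or any `G`-stable
equivalence relation between them (`Between`). The primitive cycles of codimension `j` on the
quotient `X/H` by a subgroup `H`, modulo `R`, are the primitive cycles on `X` modulo `R` which are
invariant under `H`, and the conjecture of Hodge type for `X/H` (`QuotientHodge`) says that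
`(-1)^j (z · z · D^(n-2j)) > 0` for those which are not zero. For `H = 1` it is the conjecture for
`X` and `D`.

The theorem: the conjecture for `X` follows from the conjecture for the quotients `X/H` by the
subgroups `H` in a family, if every irreducible rational representation of `G` which occurs in the
primitive cycles modulo `R` has a nonzero vector fixed by some `H` in the family. So the conjecture
for `X` is equivalent to the conjecture

* for the quotients `X/C` by the subgroups `C` with cyclic quotient `K/C`, if `K` is a commutative
  subgroup of `G` (for example for the `p + 1` quotients of order `p`, if `K = (ℤ/p)²`);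
* for the quotients by the components of a partition of a subgroup of `G`;
* for `X/⟨c⟩` and `X/[G, c]`, if `c` is an involution, and for `X/⟨c⟩`, if `c` is contained in a
  nonabelian simple subgroup.

If the conjecture is false for `X`, but true for the quotients by the subgroups of prime order, then
an irreducible representation on whose nonzero vectors `G` acts freely occurs in the primitive
cycles, the commutative subgroups and the subgroups of order `p q` of `G` are cyclic, and `G` has at
most one involution.

Positivity is not a linear condition, and the sum of the translates of subspaces on which an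
invariant form is positive definite need not be one a priori. Proof: on the real group ring consider
the form `(u, w) ↦ q(u z, w z)` and its smallest eigenvalue with respect to the standard invariant
form. If it is negative, its eigenspace is a representation of `G` in which the norm elements of all
`H` in the family vanish, since the form is nonnegative on the vectors fixed by `H`; this
contradicts the structure of the semisimple ring `ℚ[G]`. The radical is treated in the same way.
-/

open CategoryTheory Pool.Agent.H914 Pool.Agent.X252.GA Pool.Agent.X252.SCT Pool.Agent.X310.Mu
  Run7.h200.GB Run7.h200.HG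

universe u v

namespace Pool.Agent.Results.MP_ffcd14_ag.GroupActions

/-- **Group actions and the standard conjecture of Hodge type.** -/
theorem result {k : Type u} [Field k] {𝒱 : VarClass k} {ops : CycleOps 𝒱}
    (W : WeilCohomology.{u, v} ops) (X : 𝒱.Obj) {D : X.Cycles} (hD : X.IsCyc 1 D)
    (hHL : HardLefschetz W X D) {G : Type} [Group G] [Finite G] (a : G →* Aut X)
    (hinv : InvClass W a D) :
    Between W a (NumZero ops X) ∧ Between W a (HomZero W X) ∧
    (HodgeType W X D ↔ QuotientHodge ops a D (HomZero W X) ⊥) ∧
    ∀ R : ℕ → X.Cycles → Prop, Between W a R →
      (∀ j, 2 * j ≤ X.dim → ∀ (H : Subgroup G) (ι : Type) (E : ι → Subgroup G),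
        DominatedPrim W a D R j H E → (∀ i, HodgeIn ops a D R (E i) j) →
          HodgeIn ops a D R H j) ∧
      (∀ (ι : Type) (E : ι → Subgroup G),
        (∀ j, 2 * j ≤ X.dim → DominatedPrim W a D R j ⊥ E) →
        (QuotientHodge ops a D R ⊥ ↔ ∀ i, QuotientHodge ops a D R (E i))) ∧
      (∀ K : Subgroup G, (∀ x ∈ K, ∀ y ∈ K, x * y = y * x) →
        (QuotientHodge ops a D R ⊥ ↔
          ∀ C : Subgroup G, CyclicQuotient K C → QuotientHodge ops a D R C)) ∧
      (∀ (ι : Type) (E : ι → Subgroup G) (K : Subgroup G), Partitions K E →
        (QuotientHodge ops a D R ⊥ ↔ ∀ i, QuotientHodge ops a D R (E i))) ∧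
      (∀ c : G, c * c = 1 → (QuotientHodge ops a D R ⊥ ↔
        QuotientHodge ops a D R (Subgroup.zpowers c) ∧ QuotientHodge ops a D R (comms c))) ∧
      (∀ c : G, InSimple c → c ≠ 1 → c * c = 1 →
        (QuotientHodge ops a D R ⊥ ↔ QuotientHodge ops a D R (Subgroup.zpowers c))) ∧
      (¬ QuotientHodge ops a D R ⊥ →
        (∀ P : Subgroup G, (Nat.card P).Prime → QuotientHodge ops a D R P) →
        (∃ j, 2 * j ≤ X.dim ∧ FreePrim W a D R j) ∧ CyclicSubgroups G) :=
  ⟨between_num hD hHL hinv, between_hom, hodgeType_iff a, fun _ hR => mainH hD hHL hinv hR⟩

end Pool.Agent.Results.MP_ffcd14_ag.GroupActions
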